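import Pool.Agent.H21.L.R_seed8.H921R2.TatePole.Dedekind

set_option autoImplicit false

open Complex Filter Topology NumberField IsDedekindDomain

namespace Pool.Agent.H921R2.TatePole

section
variable {K : Type*} [Field K] [NumberField K]

/-- the rational prime below `v`: the least prime factor of the norm -/
noncomputable def below (v : HeightOneSpectrum (𝓞 K)) : Nat.Primes :=
  ⟨(Ideal.absNorm v.asIdeal).minFac, Nat.minFac_prime (by
    have := two_le_nm v
    unfold nm at this
    omega)⟩

/-- the residue degree of `v`: `N v = p ^ f` -/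
noncomputable def deg (v : HeightOneSpectrum (𝓞 K)) : ℕ :=
  (Ideal.absNorm v.asIdeal).factorization (below v : ℕ)

lemma nm_eq (v : HeightOneSpectrum (𝓞 K)) :
    nm v = (below v : ℕ) ^ deg v ∧ 0 < deg v ∧ (((below v : ℕ) : 𝓞 K)) ∈ v.asIdeal := by
  have hmax : v.asIdeal.IsMaximal := v.isPrime.isMaximal v.ne_bot
  obtain ⟨p, n, hn, hpm, hp, h⟩ := Ideal.exists_prime_and_absNorm_eq_pow v.asIdeal
  have h1 : (below v : ℕ) = p := by
    change (Ideal.absNorm v.asIdeal).minFac = p
    rw [h, hp.pow_minFac hn.ne']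
  have h2 : deg v = n := by
    unfold deg
    rw [h1, h, hp.factorization_pow]
    simp
  rw [h1, h2]
  exact ⟨h, hn, hpm⟩

lemma below_le_nm (v : HeightOneSpectrum (𝓞 K)) : (below v : ℕ) ≤ nm v := by
  obtain ⟨h1, h2, _⟩ := nm_eq v
  rw [h1]
  exact Nat.le_self_pow h2.ne' _

/-- at most `[K:ℚ]` primes above `p` -/
lemma card_above (p : Nat.Primes) (G : Finset (HeightOneSpectrum (𝓞 K)))
    (hG : ∀ v ∈ G, below v = p) : G.card ≤ Module.finrank ℚ K := by
  classical
  have hdvd : (∏ v ∈ G, v.asIdeal) ∣ Ideal.span {(((p : ℕ) : 𝓞 K))} := by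
    refine Finset.prod_dvd_of_isRelPrime ?_ ?_
    · intro v _ u _ hvu
      rw [Function.onFun]
      have hne : v.asIdeal ≠ u.asIdeal := fun h => hvu (HeightOneSpectrum.ext h)
      have h1 : IsCoprime v.asIdeal u.asIdeal := by
        rw [Ideal.isCoprime_iff_sup_eq]
        exact (v.isPrime.isMaximal v.ne_bot).coprime_of_ne (u.isPrime.isMaximal u.ne_bot) hne
      exact h1.isRelPrime
    · intro v hv
      rw [Ideal.dvd_iff_le, Ideal.span_singleton_le_iff_mem]
      have := (nm_eq v).2.2
      rwa [hG v hv] at this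
  have h2 : Ideal.absNorm (∏ v ∈ G, v.asIdeal) ∣ Ideal.absNorm (Ideal.span {(((p : ℕ) : 𝓞 K))}) :=
    map_dvd Ideal.absNorm hdvd
  rw [Ideal.absNorm_span_natCast, map_prod, RingOfIntegers.rank] at h2
  have hp := p.prop
  have h3 := Nat.le_of_dvd (pow_pos hp.pos _) h2
  have h4 : (p : ℕ) ^ G.card ≤ ∏ v ∈ G, Ideal.absNorm v.asIdeal := by
    rw [← Finset.prod_const]
    refine Finset.prod_le_prod' fun v hv => ?_
    have := below_le_nm v
    rw [hG v hv] at this
    exact this
  exact (Nat.pow_le_pow_iff_right hp.one_lt).mp (h4.trans h3)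

lemma fiber_finite (p : Nat.Primes) : Finite {v : HeightOneSpectrum (𝓞 K) // below v = p} := by
  by_contra h
  rw [not_finite_iff_infinite] at h
  obtain ⟨s, hs⟩ := Infinite.exists_subset_card_eq {v : HeightOneSpectrum (𝓞 K) // below v = p}
    (Module.finrank ℚ K + 1)
  classical
  have := card_above p (s.map (Function.Embedding.subtype _)) (by
    intro v hv
    rw [Finset.mem_map] at hv
    obtain ⟨u, _, rfl⟩ := hv
    exact u.2)
  rw [Finset.card_map, hs] at this
  omega

noncomputable instance (p : Nat.Primes) : Fintype {v : HeightOneSpectrum (𝓞 K) // below v = p} :=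
  @Fintype.ofFinite _ (fiber_finite p)

lemma fiber_card_le (p : Nat.Primes) :
    Fintype.card {v : HeightOneSpectrum (𝓞 K) // below v = p} ≤ Module.finrank ℚ K := by
  classical
  have := card_above p ((Finset.univ : Finset {v : HeightOneSpectrum (𝓞 K) // below v = p}).map
    (Function.Embedding.subtype _)) (by
    intro v hv
    rw [Finset.mem_map] at hv
    obtain ⟨u, _, rfl⟩ := hv
    exact u.2)
  rwa [Finset.card_map, Finset.card_univ] at this

lemma tsum_fiber {g : HeightOneSpectrum (𝓞 K) → ℝ} (hg : Summable g) :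
    ∑' v, g v = ∑' p : Nat.Primes, ∑ v : {v : HeightOneSpectrum (𝓞 K) // below v = p}, g v := by
  have h0 := ((Equiv.sigmaFiberEquiv (below (K := K))).summable_iff.mpr hg)
  have h1 := h0.tsum_sigma
  have h2 : ∑' c : (y : Nat.Primes) × {v : HeightOneSpectrum (𝓞 K) // below v = y},
      (g ∘ (Equiv.sigmaFiberEquiv (below (K := K)))) c = ∑' v, g v :=
    (Equiv.sigmaFiberEquiv (below (K := K))).tsum_eq g
  rw [← h2, h1]
  refine tsum_congr fun p => ?_
  rw [tsum_fintype]
  rfl

lemma summable_fiber {g : HeightOneSpectrum (𝓞 K) → ℝ} (hg : Summable g) :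
    Summable fun p : Nat.Primes => ∑ v : {v : HeightOneSpectrum (𝓞 K) // below v = p}, g v := by
  have h := ((Equiv.sigmaFiberEquiv (below (K := K))).summable_iff.mpr hg).sigma
  refine h.congr fun p => ?_
  rw [tsum_fintype]
  rfl

variable (K) in
/-- the number of degree one primes above `p` -/
noncomputable def R (p : Nat.Primes) : ℕ :=
  (Finset.univ.filter
    (fun v : {v : HeightOneSpectrum (𝓞 K) // below v = p} => deg v.1 = 1)).card

lemma R_le (p : Nat.Primes) : R K p ≤ Module.finrank ℚ K :=
  (Finset.card_filter_le _ _).trans (by rw [Finset.card_univ]; exact fiber_card_le p)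

/-- primes of degree at least two contribute a bounded amount -/
lemma deg_two_bound {x : ℝ} (hx : 1 < x) {g : HeightOneSpectrum (𝓞 K) → ℝ} {C : ℝ}
    (hg : ∀ v, |g v| ≤ C) :
    |∑' v, g v * (nm v : ℝ) ^ (-x) - ∑' p : Nat.Primes,
      (∑ v : {v : HeightOneSpectrum (𝓞 K) // below v = p}, if deg v.1 = 1 then g v.1 else 0) *
        w x p| ≤ C * Module.finrank ℚ K * C0 := by
  classical
  have hC : 0 ≤ C := by
    -- there is at least one prime
    by_contra h
    rw [not_le] at h
    have hne : Nonempty (HeightOneSpectrum (𝓞 K)) := by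
      have hnf : ¬ IsField (𝓞 K) := RingOfIntegers.not_isField K
      obtain ⟨M, hM⟩ := Ideal.exists_maximal (𝓞 K)
      exact ⟨⟨M, hM.isPrime, Ring.ne_bot_of_isMaximal_of_not_isField hM hnf⟩⟩
    obtain ⟨v⟩ := hne
    have := (abs_nonneg _).trans (hg v)
    linarith
  have hs : Summable (fun v : HeightOneSpectrum (𝓞 K) => g v * (nm v : ℝ) ^ (-x)) := by
    refine Summable.of_norm_bounded ((nm_summable hx).mul_left C) fun v => ?_
    rw [norm_mul, Real.norm_eq_abs, Real.norm_eq_abs, abs_of_nonneg (a := (nm v : ℝ) ^ (-x))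
      (by positivity)]
    exact mul_le_mul_of_nonneg_right (hg v) (by positivity)
  rw [tsum_fiber hs]
  have hs1 := summable_fiber hs
  have hbd : ∀ p : Nat.Primes, |(∑ v : {v : HeightOneSpectrum (𝓞 K) // below v = p},
      if deg v.1 = 1 then g v.1 else 0)| ≤ C * Module.finrank ℚ K := by
    intro p
    refine (Finset.abs_sum_le_sum_abs _ _).trans ?_
    calc ∑ v : {v : HeightOneSpectrum (𝓞 K) // below v = p}, |if deg v.1 = 1 then g v.1 else 0|
        ≤ ∑ v : {v : HeightOneSpectrum (𝓞 K) // below v = p}, C := by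
          refine Finset.sum_le_sum fun v _ => ?_
          split_ifs
          · exact hg _
          · simpa using hC
      _ = (Fintype.card {v : HeightOneSpectrum (𝓞 K) // below v = p}) * C := by simp
      _ ≤ C * Module.finrank ℚ K := by
          rw [mul_comm]
          exact mul_le_mul_of_nonneg_left (by exact_mod_cast fiber_card_le p) hC
  have hs2 : Summable (fun p : Nat.Primes =>
      (∑ v : {v : HeightOneSpectrum (𝓞 K) // below v = p}, if deg v.1 = 1 then g v.1 else 0) *
        w x p) := bddmul_summable hx hbd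
  rw [← Summable.tsum_sub hs1 hs2]
  have hterm : ∀ p : Nat.Primes,
      |(∑ v : {v : HeightOneSpectrum (𝓞 K) // below v = p}, g v.1 * (nm v.1 : ℝ) ^ (-x)) -
      (∑ v : {v : HeightOneSpectrum (𝓞 K) // below v = p}, if deg v.1 = 1 then g v.1 else 0) *
        w x p| ≤ C * Module.finrank ℚ K * ((p : ℕ) : ℝ) ^ (-(2 : ℝ)) := by
    intro p
    rw [Finset.sum_mul, ← Finset.sum_sub_distrib]
    refine (Finset.abs_sum_le_sum_abs _ _).trans ?_
    calc _ ≤ ∑ v : {v : HeightOneSpectrum (𝓞 K) // below v = p}, C * ((p : ℕ) : ℝ) ^ (-(2 : ℝ)) := by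
          refine Finset.sum_le_sum fun v _ => ?_
          have hp1 : (1 : ℝ) ≤ (p : ℕ) := by exact_mod_cast p.prop.one_lt.le
          obtain ⟨h1, h2, _⟩ := nm_eq v.1
          rw [v.2] at h1
          split_ifs with hd
          · rw [h1, hd, pow_one]
            unfold w
            rw [sub_self, abs_zero]
            positivity
          · rw [zero_mul, sub_zero, abs_mul, abs_of_nonneg (a := (nm v.1 : ℝ) ^ (-x))
              (by positivity)]
            refine mul_le_mul (hg _) ?_ (by positivity) hC
            rw [h1]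
            push_cast
            rw [← Real.rpow_natCast, ← Real.rpow_mul (by positivity)]
            refine Real.rpow_le_rpow_of_exponent_le hp1 ?_
            have hd2 : (2 : ℝ) ≤ (deg v.1 : ℝ) := by
              have : 2 ≤ deg v.1 := by omega
              exact_mod_cast this
            nlinarith
      _ = (Fintype.card {v : HeightOneSpectrum (𝓞 K) // below v = p}) *
            (C * ((p : ℕ) : ℝ) ^ (-(2 : ℝ))) := by simp
      _ ≤ C * Module.finrank ℚ K * ((p : ℕ) : ℝ) ^ (-(2 : ℝ)) := by
          have h5 : (Fintype.card {v : HeightOneSpectrum (𝓞 K) // below v = p} : ℝ) ≤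
            Module.finrank ℚ K := by exact_mod_cast fiber_card_le p
          have h6 : 0 ≤ C * ((p : ℕ) : ℝ) ^ (-(2 : ℝ)) := by positivity
          nlinarith
  have := tsum_of_norm_bounded (f := fun p : Nat.Primes =>
      (∑ v : {v : HeightOneSpectrum (𝓞 K) // below v = p}, g v.1 * (nm v.1 : ℝ) ^ (-x)) -
      (∑ v : {v : HeightOneSpectrum (𝓞 K) // below v = p}, if deg v.1 = 1 then g v.1 else 0) *
        w x p)
      ((summable_primes_rpow (x := 2) (by norm_num)).mul_left (C * Module.finrank ℚ K)).hasSum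
      (fun p => by rw [Real.norm_eq_abs]; exact hterm p)
  rw [Real.norm_eq_abs, tsum_mul_left] at this
  exact this

end

end Pool.Agent.H921R2.TatePole
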