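import Pool.Agent.H21.L.R_seed8.H921R2.TatePole.Basic

set_option autoImplicit false

open Complex Filter Topology

namespace Pool.Agent.H921R2.TatePole

/-- `Λ(s) = log (1/(s-1))`. -/
noncomputable def Lam (x : ℝ) : ℝ := Real.log (1 / (x - 1))

lemma eulerL_dirichlet {N : ℕ} (χ : DirichletCharacter ℂ N) {s : ℂ} (hs : 1 < s.re) :
    eulerL (J := Fin 1) (fun p _ => χ ((p : ℕ) : ZMod N)) s = LSeries (fun n => χ (n : ZMod N)) s := by
  unfold eulerL
  simp only [Finset.univ_unique, Fin.default_eq_zero, Finset.prod_const, Finset.card_singleton,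
    pow_one]
  exact DirichletCharacter.LSeries_eulerProduct_tprod χ hs

/-- A real function stays bounded near `x → 1+`. -/
def Bdd (f : ℝ → ℝ) : Prop := ∃ C : ℝ, ∀ᶠ x : ℝ in 𝓝[>] 1, |f x| ≤ C

lemma Bdd.add {f g : ℝ → ℝ} (hf : Bdd f) (hg : Bdd g) : Bdd (fun x => f x + g x) := by
  obtain ⟨C, hC⟩ := hf
  obtain ⟨D, hD⟩ := hg
  refine ⟨C + D, ?_⟩
  filter_upwards [hC, hD] with x h1 h2
  exact (abs_add_le _ _).trans (add_le_add h1 h2)

lemma Bdd.neg {f : ℝ → ℝ} (hf : Bdd f) : Bdd (fun x => - f x) := by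
  obtain ⟨C, hC⟩ := hf
  exact ⟨C, by filter_upwards [hC] with x h1; rwa [abs_neg]⟩

lemma Bdd.sub {f g : ℝ → ℝ} (hf : Bdd f) (hg : Bdd g) : Bdd (fun x => f x - g x) := by
  simpa only [sub_eq_add_neg] using hf.add hg.neg

lemma Bdd.congr {f g : ℝ → ℝ} (hf : Bdd f) (h : ∀ x : ℝ, 1 < x → g x = f x) : Bdd g := by
  obtain ⟨C, hC⟩ := hf
  refine ⟨C, ?_⟩
  filter_upwards [hC, self_mem_nhdsWithin] with x h1 h2
  rw [h x h2]; exact h1

lemma Bdd.of_tendsto {f : ℝ → ℝ} {a : ℝ} (h : Tendsto f (𝓝[>] 1) (𝓝 a)) : Bdd f := by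
  refine ⟨|a| + 1, ?_⟩
  have h1 : Tendsto (fun x => |f x|) (𝓝[>] 1) (𝓝 |a|) := h.abs
  filter_upwards [h1.eventually (gt_mem_nhds (show |a| < |a| + 1 by linarith))] with x hx
  exact hx.le

/-- `∑_p p^{-x} = log(1/(x-1)) + O(1)`. -/
lemma W_sub_Lam_bdd : Bdd (fun x => W x - Lam x) := by
  -- compare with the logarithm of `ζ`
  have h1 : Bdd (fun x : ℝ => Real.log ‖LSeries (fun n => (1 : DirichletCharacter ℂ 1) (n : ZMod 1)) (x : ℂ)‖ - W x) := by
    refine ⟨(Fintype.card (Fin 1) : ℕ) * C0, ?_⟩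
    filter_upwards [self_mem_nhdsWithin] with x hx
    have hx' : (1 : ℝ) < ((x : ℂ)).re := by simpa using hx
    have h2 := (eulerL_log (c := fun p (_ : Fin 1) => (1 : DirichletCharacter ℂ 1) ((p : ℕ) : ZMod 1))
      (fun p j => DirichletCharacter.norm_le_one _ _) hx').2
    rw [eulerL_dirichlet _ hx'] at h2
    have h3 : (∑' p : Nat.Primes, (∑ j : Fin 1, (1 : DirichletCharacter ℂ 1) ((p : ℕ) : ZMod 1)) *
        ((p : ℕ) : ℂ) ^ (-(x : ℂ))).re = W x := by
      have h4 : ∀ p : Nat.Primes, (∑ j : Fin 1, (1 : DirichletCharacter ℂ 1) ((p : ℕ) : ZMod 1)) *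
        ((p : ℕ) : ℂ) ^ (-(x : ℂ)) = (((((p : ℕ) : ℝ) ^ (-x)) : ℝ) : ℂ) := by
        intro p
        rw [Complex.ofReal_cpow (by positivity)]
        have : (1 : DirichletCharacter ℂ 1) ((p : ℕ) : ZMod 1) = 1 :=
          MulChar.one_apply (isUnit_of_subsingleton _)
        simp [this]
      rw [tsum_congr h4, ← Complex.ofReal_tsum, Complex.ofReal_re]
      rfl
    rw [h3] at h2
    exact h2
  have h2 : Tendsto (fun x : ℝ => Real.log ‖((x : ℂ) - 1) * riemannZeta x‖) (𝓝[>] 1) (𝓝 (Real.log ‖(1 : ℂ)‖)) := by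
    have h3 : Tendsto (fun x : ℝ => ((x : ℂ) - 1) * riemannZeta x) (𝓝[>] 1) (𝓝 1) := by
      have h4 : Tendsto (fun x : ℝ => (x : ℂ)) (𝓝[>] 1) (𝓝[≠] 1) := by
        rw [tendsto_nhdsWithin_iff]
        constructor
        · have : Tendsto (fun x : ℝ => (x : ℂ)) (𝓝 1) (𝓝 ((1 : ℝ) : ℂ)) :=
            Complex.continuous_ofReal.tendsto 1
          simpa using this.mono_left nhdsWithin_le_nhds
        · filter_upwards [self_mem_nhdsWithin] with x hx
          simp only [Set.mem_compl_iff, Set.mem_singleton_iff]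
          intro h
          have : x = 1 := by exact_mod_cast h
          exact (ne_of_gt (Set.mem_Ioi.mp hx)) this
      exact riemannZeta_residue_one.comp h4
    exact (h3.norm).log (by simp)
  have h3 : Bdd (fun x : ℝ => Real.log ‖((x : ℂ) - 1) * riemannZeta x‖) := Bdd.of_tendsto h2
  refine (h3.sub h1).congr fun x hx => ?_
  have hx' : (1 : ℝ) < ((x : ℂ)).re := by simpa using hx
  have e1 : LSeries (fun n => (1 : DirichletCharacter ℂ 1) (n : ZMod 1)) (x : ℂ) = riemannZeta x := by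
    rw [← LSeries_one_eq_riemannZeta hx']
    congr 1
    funext n
    exact MulChar.one_apply (isUnit_of_subsingleton _)
  rw [e1]
  have hz : riemannZeta x ≠ 0 := riemannZeta_ne_zero_of_one_lt_re hx'
  have hx1 : ((x : ℂ) - 1) ≠ 0 := by
    intro h
    have : (x : ℂ) = 1 := sub_eq_zero.mp h
    have : x = 1 := by exact_mod_cast this
    linarith
  rw [norm_mul, Real.log_mul (by simpa using hx1) (by simpa using hz)]
  have e2 : ‖((x : ℂ) - 1)‖ = x - 1 := by
    have : ((x : ℂ) - 1) = ((x - 1 : ℝ) : ℂ) := by push_cast; ring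
    rw [this, Complex.norm_real, Real.norm_eq_abs, abs_of_pos (by linarith)]
  rw [e2]
  unfold Lam
  rw [one_div, Real.log_inv]
  ring

/-- The prime sums of a non-trivial Dirichlet character, or away from the real point, are bounded
at the edge. -/
lemma dirichlet_bdd {N : ℕ} [NeZero N] (ψ : DirichletCharacter ℂ N) (τ : ℝ)
    (h : ψ ≠ 1 ∨ τ ≠ 0) :
    Bdd (fun x : ℝ => (∑' p : Nat.Primes, ψ ((p : ℕ) : ZMod N) *
      ((p : ℕ) : ℂ) ^ (-((x : ℂ) + τ * I))).re) := by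
  have h0 : (1 + τ * I : ℂ) ≠ 1 ∨ ψ ≠ 1 := by
    rcases h with h | h
    · exact Or.inr h
    · left
      intro h2
      have : (τ : ℂ) * I = 0 := by linear_combination h2
      rcases mul_eq_zero.mp this with h3 | h3
      · exact h (by exact_mod_cast h3)
      · exact I_ne_zero h3
  have h1 : ψ.LFunction (1 + τ * I) ≠ 0 := by
    refine DirichletCharacter.LFunction_ne_zero_of_one_le_re ψ (s := 1 + τ * I) ?_ ?_
    · exact h0.symm
    · simp
  have h2 : Tendsto (fun x : ℝ => ψ.LFunction ((x : ℂ) + τ * I)) (𝓝[>] 1)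
      (𝓝 (ψ.LFunction (1 + τ * I))) := by
    have hc : ContinuousAt ψ.LFunction (1 + τ * I) :=
      (DirichletCharacter.differentiableAt_LFunction ψ _ h0).continuousAt
    have hx : Tendsto (fun x : ℝ => (x : ℂ) + τ * I) (𝓝[>] 1) (𝓝 (1 + τ * I)) := by
      have : Tendsto (fun x : ℝ => (x : ℂ) + τ * I) (𝓝 1) (𝓝 (((1 : ℝ) : ℂ) + τ * I)) :=
        (Complex.continuous_ofReal.tendsto 1).add_const _
      simpa using this.mono_left nhdsWithin_le_nhds
    exact hc.tendsto.comp hx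
  have h3 : Bdd (fun x : ℝ => Real.log ‖ψ.LFunction ((x : ℂ) + τ * I)‖) :=
    Bdd.of_tendsto (h2.norm.log (by simpa using h1))
  have h4 : Bdd (fun x : ℝ => Real.log ‖LSeries (fun n => ψ (n : ZMod N)) ((x : ℂ) + τ * I)‖ -
      (∑' p : Nat.Primes, ψ ((p : ℕ) : ZMod N) *
      ((p : ℕ) : ℂ) ^ (-((x : ℂ) + τ * I))).re) := by
    refine ⟨(Fintype.card (Fin 1) : ℕ) * C0, ?_⟩
    filter_upwards [self_mem_nhdsWithin] with x hx
    have hx' : (1 : ℝ) < ((x : ℂ) + τ * I).re := by simpa using hx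
    have h5 := (eulerL_log (c := fun p (_ : Fin 1) => ψ ((p : ℕ) : ZMod N))
      (fun p j => DirichletCharacter.norm_le_one _ _) hx').2
    rw [eulerL_dirichlet _ hx'] at h5
    simpa using h5
  refine (h3.sub h4).congr fun x hx => ?_
  have hx' : (1 : ℝ) < ((x : ℂ) + τ * I).re := by simpa using hx
  rw [DirichletCharacter.LFunction_eq_LSeries ψ hx']
  ring

end Pool.Agent.H921R2.TatePole
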