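import Pool.Agent.H21.L.R_seed8.H921R2.TatePole.Bessel

set_option autoImplicit false

open Complex Filter Topology

namespace Pool.Agent.H921R2.TatePole

lemma Lam_tendsto : Tendsto Lam (𝓝[>] 1) atTop := by
  unfold Lam
  refine Real.tendsto_log_atTop.comp ?_
  have h1 : Tendsto (fun x : ℝ => x - 1) (𝓝[>] 1) (𝓝[>] 0) := by
    rw [tendsto_nhdsWithin_iff]
    constructor
    · have : Tendsto (fun x : ℝ => x - 1) (𝓝 1) (𝓝 (1 - 1)) := tendsto_id.sub_const 1
      simpa using this.mono_left nhdsWithin_le_nhds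
    · filter_upwards [self_mem_nhdsWithin] with x hx
      exact sub_pos.mpr (Set.mem_Ioi.mp hx)
  have h2 := tendsto_inv_nhdsGT_zero.comp h1
  refine h2.congr fun x => ?_
  simp [Function.comp]

lemma W_tendsto : Tendsto W (𝓝[>] 1) atTop := by
  obtain ⟨C, hC⟩ := W_sub_Lam_bdd
  refine tendsto_atTop_mono' (𝓝[>] 1) (f₁ := fun x => Lam x - C) ?_
    (tendsto_atTop_add_const_right _ _ Lam_tendsto)
  filter_upwards [hC] with x hx
  have := (abs_le.mp hx).1
  linarith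

section
variable {J : Type*} [Fintype J] {α : Nat.Primes → J → ℂ}

lemma sum_norm_le (hα : ∀ p j, ‖α p j‖ ≤ 1) (p : Nat.Primes) :
    ‖∑ j, α p j‖ ≤ Fintype.card J := by
  refine (norm_sum_le _ _).trans ?_
  calc ∑ j, ‖α p j‖ ≤ ∑ _j : J, (1 : ℝ) := Finset.sum_le_sum fun j _ => hα p j
    _ = Fintype.card J := by simp

lemma twist_log (hα : ∀ p j, ‖α p j‖ ≤ 1) {N : ℕ} (χ : DirichletCharacter ℂ N) (τ : ℝ)
    {x : ℝ} (hx : 1 < x) :
    eulerL (fun p j => χ ((p : ℕ) : ZMod N) * α p j) ((x : ℂ) + τ * I) ≠ 0 ∧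
    |Real.log ‖eulerL (fun p j => χ ((p : ℕ) : ZMod N) * α p j) ((x : ℂ) + τ * I)‖ -
      ∑' p, ((∑ j, α p j) * tw χ τ p).re * w x p| ≤ Fintype.card J * C0 := by
  have hx' : (1 : ℝ) < ((x : ℂ) + τ * I).re := by simpa using hx
  have h := eulerL_log (c := fun p j => χ ((p : ℕ) : ZMod N) * α p j) (fun p j => by
    rw [norm_mul]
    exact mul_le_one₀ (DirichletCharacter.norm_le_one _ _) (norm_nonneg _) (hα p j)) hx'
  refine ⟨h.1, ?_⟩
  have h2 := h.2
  rw [← tsum_re_tw (sum_norm_le hα) χ τ hx]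
  have e : ∀ p : Nat.Primes, (∑ j, χ ((p : ℕ) : ZMod N) * α p j) = χ ((p : ℕ) : ZMod N) * ∑ j, α p j := by
    intro p
    rw [Finset.mul_sum]
  simp only [e] at h2
  exact h2

lemma self_log (hα : ∀ p j, ‖α p j‖ ≤ 1) {x : ℝ} (hx : 1 < x) :
    eulerL (fun p (jk : J × J) => α p jk.1 * (starRingEnd ℂ) (α p jk.2)) (x : ℂ) ≠ 0 ∧
    |Real.log ‖eulerL (fun p (jk : J × J) => α p jk.1 * (starRingEnd ℂ) (α p jk.2)) (x : ℂ)‖ -
      ∑' p, ‖∑ j, α p j‖ ^ 2 * w x p| ≤ (Fintype.card J : ℝ) ^ 2 * C0 := by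
  have hx' : (1 : ℝ) < ((x : ℂ)).re := by simpa using hx
  have h := eulerL_log (c := fun p (jk : J × J) => α p jk.1 * (starRingEnd ℂ) (α p jk.2))
    (fun p j => by
      rw [norm_mul, Complex.norm_conj]
      exact mul_le_one₀ (hα p _) (norm_nonneg _) (hα p _)) hx'
  refine ⟨h.1, ?_⟩
  have h2 := h.2
  have e : ∀ p : Nat.Primes, (∑ jk : J × J, α p jk.1 * (starRingEnd ℂ) (α p jk.2)) *
      ((p : ℕ) : ℂ) ^ (-(x : ℂ)) = ((‖∑ j, α p j‖ ^ 2 * w x p : ℝ) : ℂ) := by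
    intro p
    have h3 : (∑ jk : J × J, α p jk.1 * (starRingEnd ℂ) (α p jk.2)) =
        (∑ j, α p j) * (starRingEnd ℂ) (∑ j, α p j) := by
      rw [map_sum, Finset.sum_mul_sum, Fintype.sum_prod_type]
    rw [h3, Complex.mul_conj, Complex.normSq_eq_norm_sq]
    unfold w
    rw [Complex.ofReal_mul, Complex.ofReal_cpow (by positivity)]
    simp
  rw [tsum_congr e, ← Complex.ofReal_tsum, Complex.ofReal_re] at h2
  have h4 : ((Fintype.card (J × J) : ℕ) : ℝ) = (Fintype.card J : ℝ) ^ 2 := by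
    rw [Fintype.card_prod]; push_cast; ring
  rw [h4] at h2
  exact h2

/-- The main inequality, in terms of `W`. -/
theorem main_W (hα : ∀ p j, ‖α p j‖ ≤ 1) {ι : Type*} [Fintype ι]
    (N : ι → ℕ) [∀ i, NeZero (N i)] (χ : ∀ i, DirichletCharacter ℂ (N i)) (τ : ι → ℝ)
    (hne : ∀ i j, i ≠ j → τ i ≠ τ j ∨
      ∃ n : ℕ, n.Coprime (N i) ∧ n.Coprime (N j) ∧ χ i (n : ZMod (N i)) ≠ χ j (n : ZMod (N j))) :
    ∃ C : ℝ, ∀ᶠ x : ℝ in 𝓝[>] 1,
      ∑ i, (Real.log ‖eulerL (fun p j => χ i ((p : ℕ) : ZMod (N i)) * α p j)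
        ((x : ℂ) + τ i * I)‖) ^ 2 ≤
      (∑' p, ‖∑ j, α p j‖ ^ 2 * w x p) * W x + C * W x := by
  classical
  set T : ℝ := (Fintype.card J : ℝ) with hT
  have hT0 : 0 ≤ T := by positivity
  -- off-diagonal bounds
  have hoff : ∃ D : ℝ, 0 ≤ D ∧ ∀ᶠ x : ℝ in 𝓝[>] 1, ∀ i j, i ≠ j →
      |∑' p, ((starRingEnd ℂ) (tw (χ i) (τ i) p) * tw (χ j) (τ j) p).re * w x p| ≤ D := by
    have h1 : ∀ ij : ι × ι, ∃ D : ℝ, 0 ≤ D ∧ ∀ᶠ x : ℝ in 𝓝[>] 1, ij.1 ≠ ij.2 →
      |∑' p, ((starRingEnd ℂ) (tw (χ ij.1) (τ ij.1) p) * tw (χ ij.2) (τ ij.2) p).re * w x p| ≤ D := by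
      intro ij
      by_cases hij : ij.1 = ij.2
      · exact ⟨0, le_rfl, Eventually.of_forall fun x h => absurd hij h⟩
      · obtain ⟨D, hD⟩ := orth (χ ij.1) (χ ij.2) (τ ij.1) (τ ij.2) (hne _ _ hij)
        refine ⟨|D|, abs_nonneg _, ?_⟩
        filter_upwards [hD] with x hx _
        exact hx.trans (le_abs_self D)
    choose D hD0 hD using h1
    refine ⟨∑ ij, D ij, Finset.sum_nonneg fun ij _ => hD0 ij, ?_⟩
    have h2 : ∀ᶠ x : ℝ in 𝓝[>] 1, ∀ ij : ι × ι, ij.1 ≠ ij.2 →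
      |∑' p, ((starRingEnd ℂ) (tw (χ ij.1) (τ ij.1) p) * tw (χ ij.2) (τ ij.2) p).re * w x p| ≤ D ij :=
      eventually_all.mpr hD
    filter_upwards [h2] with x hx i j hij
    exact (hx (i, j) hij).trans
      (Finset.single_le_sum (f := D) (fun ij _ => hD0 ij) (Finset.mem_univ (i, j)))
  obtain ⟨D, hD0, hD⟩ := hoff
  set n : ℝ := (Fintype.card ι : ℝ) with hn
  refine ⟨2 * n * ((T + 1) * (T * C0)) + n * n * ((T + 1) * (T + 1) * D), ?_⟩
  have hW1 : ∀ᶠ x : ℝ in 𝓝[>] 1, T * C0 + 1 ≤ W x := W_tendsto.eventually_ge_atTop _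
  filter_upwards [hD, hW1, self_mem_nhdsWithin] with x hDx hWx hx1
  have hx : 1 < x := hx1
  have hTC : 0 ≤ T * C0 := mul_nonneg hT0 C0_nonneg
  have hWpos : 0 < W x := by linarith
  set ℓ : ι → ℝ := fun i => Real.log ‖eulerL (fun p j => χ i ((p : ℕ) : ZMod (N i)) * α p j)
        ((x : ℂ) + τ i * I)‖ with hℓ
  set A : ι → ℝ := fun i => ∑' p, ((∑ j, α p j) * tw (χ i) (τ i) p).re * w x p with hA
  have hℓA : ∀ i, |ℓ i - A i| ≤ T * C0 := fun i => (twist_log hα (χ i) (τ i) hx).2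
  have hAW : ∀ i, |A i| ≤ T * W x := by
    intro i
    have h1 : ∀ p, |((∑ j, α p j) * tw (χ i) (τ i) p).re| ≤ T := fun p => by
      refine (Complex.abs_re_le_norm _).trans ?_
      rw [norm_mul]
      calc ‖∑ j, α p j‖ * ‖tw (χ i) (τ i) p‖ ≤ T * 1 :=
            mul_le_mul (sum_norm_le hα p) (norm_tw_le _ _ _) (norm_nonneg _) hT0
        _ = T := mul_one T
    have h2 := tsum_of_norm_bounded (f := fun p => ((∑ j, α p j) * tw (χ i) (τ i) p).re * w x p)
      ((w_summable hx).mul_left T).hasSum (fun p => by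
        rw [norm_mul, Real.norm_eq_abs, Real.norm_eq_abs, abs_of_nonneg (w_nonneg x p)]
        exact mul_le_mul_of_nonneg_right (h1 p) (w_nonneg x p))
    rw [Real.norm_eq_abs, tsum_mul_left] at h2
    exact h2
  set y : ι → ℝ := fun i => ℓ i / W x with hy
  have hyT : ∀ i, |y i| ≤ T + 1 := by
    intro i
    have h1 : |ℓ i| ≤ T * W x + T * C0 := by
      have := abs_le.mp (hℓA i)
      have := abs_le.mp (hAW i)
      rw [abs_le]
      constructor <;> linarith
    rw [hy]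
    simp only
    rw [abs_div, abs_of_pos hWpos, div_le_iff₀ hWpos]
    nlinarith
  have hB := bessel (a := fun p => ∑ j, α p j) T (sum_norm_le hα) (fun i p => tw (χ i) (τ i) p)
    (fun i p => norm_tw_le _ _ _) y hx
  set Q : ℝ := ∑' p, ‖∑ j, α p j‖ ^ 2 * w x p with hQ
  -- left side
  have hleft : 2 * (∑ i, (ℓ i) ^ 2) / W x - 2 * n * ((T + 1) * (T * C0)) ≤
      2 * ∑ i, y i * A i := by
    have h1 : ∀ i, (ℓ i) ^ 2 / W x - (T + 1) * (T * C0) ≤ y i * A i := by
      intro i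
      have h2 : y i * A i = y i * ℓ i - y i * (ℓ i - A i) := by ring
      have h3 : y i * ℓ i = (ℓ i) ^ 2 / W x := by rw [hy]; ring
      have h4 : |y i * (ℓ i - A i)| ≤ (T + 1) * (T * C0) := by
        rw [abs_mul]
        exact mul_le_mul (hyT i) (hℓA i) (abs_nonneg _) (by linarith)
      have h5 := (abs_le.mp h4).2
      rw [h2, h3]
      linarith
    have h2 : ∑ i, ((ℓ i) ^ 2 / W x - (T + 1) * (T * C0)) ≤ ∑ i, y i * A i :=
      Finset.sum_le_sum fun i _ => h1 i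
    rw [Finset.sum_sub_distrib, ← Finset.sum_div] at h2
    simp only [Finset.sum_const, Finset.card_univ, nsmul_eq_mul] at h2
    have h3 : 2 * (∑ i, (ℓ i) ^ 2) / W x = 2 * ((∑ i, (ℓ i) ^ 2) / W x) := by ring
    rw [h3]
    linarith
  -- right side
  have hright : ∑ i, ∑ j, y i * y j *
      (∑' p, ((starRingEnd ℂ) (tw (χ i) (τ i) p) * tw (χ j) (τ j) p).re * w x p) ≤
      (∑ i, (ℓ i) ^ 2) / W x + n * n * ((T + 1) * (T + 1) * D) := by
    have h1 : ∀ i j, y i * y j *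
      (∑' p, ((starRingEnd ℂ) (tw (χ i) (τ i) p) * tw (χ j) (τ j) p).re * w x p) ≤
      (if i = j then (ℓ i) ^ 2 / W x else 0) + (T + 1) * (T + 1) * D := by
      intro i j
      have hpos : 0 ≤ (T + 1) * (T + 1) * D := by positivity
      split_ifs with hij
      · subst hij
        have h2 : ∑' p, ((starRingEnd ℂ) (tw (χ i) (τ i) p) * tw (χ i) (τ i) p).re * w x p ≤
            W x := by
          refine Summable.tsum_le_tsum (fun p => ?_) ?_ (w_summable hx)
          · have : ((starRingEnd ℂ) (tw (χ i) (τ i) p) * tw (χ i) (τ i) p).re ≤ 1 := by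
              refine (Complex.re_le_norm _).trans ?_
              rw [norm_mul, Complex.norm_conj]
              calc ‖tw (χ i) (τ i) p‖ * ‖tw (χ i) (τ i) p‖ ≤ 1 * 1 :=
                    mul_le_mul (norm_tw_le _ _ _) (norm_tw_le _ _ _) (norm_nonneg _) zero_le_one
                _ = 1 := mul_one 1
            calc _ ≤ 1 * w x p := mul_le_mul_of_nonneg_right this (w_nonneg x p)
              _ = _ := one_mul _
          · refine bddmul_summable hx (C := 1) fun p => ?_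
            refine (Complex.abs_re_le_norm _).trans ?_
            rw [norm_mul, Complex.norm_conj]
            calc ‖tw (χ i) (τ i) p‖ * ‖tw (χ i) (τ i) p‖ ≤ 1 * 1 :=
                  mul_le_mul (norm_tw_le _ _ _) (norm_tw_le _ _ _) (norm_nonneg _) zero_le_one
              _ = 1 := mul_one 1
        have h3 : y i * y i * (∑' p, ((starRingEnd ℂ) (tw (χ i) (τ i) p) *
            tw (χ i) (τ i) p).re * w x p) ≤ y i * y i * W x :=
          mul_le_mul_of_nonneg_left h2 (mul_self_nonneg _)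
        have h4 : y i * y i * W x = (ℓ i) ^ 2 / W x := by
          rw [hy]; field_simp
        linarith
      · have h2 : |y i * y j * (∑' p, ((starRingEnd ℂ) (tw (χ i) (τ i) p) *
            tw (χ j) (τ j) p).re * w x p)| ≤ (T + 1) * (T + 1) * D := by
          rw [abs_mul, abs_mul]
          refine mul_le_mul (mul_le_mul (hyT i) (hyT j) (abs_nonneg _) (by linarith))
            (hDx i j hij) (abs_nonneg _) (by positivity)
        have := (abs_le.mp h2).2
        linarith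
    calc _ ≤ ∑ i, ∑ j, ((if i = j then (ℓ i) ^ 2 / W x else 0) + (T + 1) * (T + 1) * D) :=
          Finset.sum_le_sum fun i _ => Finset.sum_le_sum fun j _ => h1 i j
      _ = (∑ i, (ℓ i) ^ 2) / W x + n * n * ((T + 1) * (T + 1) * D) := by
          simp only [Finset.sum_add_distrib, Finset.sum_ite_eq, Finset.mem_univ, if_true,
            Finset.sum_const, Finset.card_univ, nsmul_eq_mul, Finset.sum_div]
          ring
  have hfin : (∑ i, (ℓ i) ^ 2) / W x ≤ Q + (2 * n * ((T + 1) * (T * C0)) +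
      n * n * ((T + 1) * (T + 1) * D)) := by
    have h3 : 2 * (∑ i, (ℓ i) ^ 2) / W x = 2 * ((∑ i, (ℓ i) ^ 2) / W x) := by ring
    rw [h3] at hleft
    linarith
  rw [div_le_iff₀ hWpos] at hfin
  linarith

end

end Pool.Agent.H921R2.TatePole
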